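import Pool.Agent.helper85.TA.Ev

/-!
# `SU(h)` splits over an algebraically closed field
-/

set_option autoImplicit false

namespace Pool.Agent.helper85.TA

open Pool.Agent.helper83.TA Matrix

variable {R : Type} [CommRing R]

/-- diagonal blocks -/
def blk (c : Fin 9 → R) (M : Matrix (Fin 3) (Fin 3) R) : Matrix I I R :=
  fun p q => if p.1 = q.1 then c p.1 * M p.2 q.2 else 0

theorem blk_mul (c d : Fin 9 → R) (M N : Matrix (Fin 3) (Fin 3) R) :
    blk c M * blk d N = blk (fun k => c k * d k) (M * N) := by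
  ext p q
  rw [Matrix.mul_apply, Fintype.sum_prod_type]
  simp only [blk]
  by_cases h : p.1 = q.1
  · rw [if_pos h, Finset.sum_eq_single p.1]
    · simp only [if_true, if_pos h]
      rw [Matrix.mul_apply, Finset.mul_sum]
      refine Finset.sum_congr rfl fun k _ => ?_
      rw [h]
      ring
    · intro k _ hk
      refine Finset.sum_eq_zero fun l _ => ?_
      rw [if_neg (Ne.symm hk), zero_mul]
    · intro h'
      exact absurd (Finset.mem_univ _) h'
  · rw [if_neg h]
    refine Finset.sum_eq_zero fun k _ => Finset.sum_eq_zero fun l _ => ?_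
    by_cases h1 : p.1 = k
    · rw [if_neg (fun h2 => h (h1.trans h2)), mul_zero]
    · rw [if_neg h1, zero_mul]

theorem blk_one (c : Fin 9 → R) (M : Matrix (Fin 3) (Fin 3) R) (hc : ∀ k, c k = 1) (hM : M = 1) :
    blk c M = 1 := by
  subst hM
  ext ⟨p1, p2⟩ ⟨q1, q2⟩
  simp only [blk, hc, one_mul, Matrix.one_apply, Prod.mk.injEq]
  by_cases h : p1 = q1 <;> by_cases h' : p2 = q2 <;> simp [h, h']

theorem blk_transpose (c : Fin 9 → R) (M : Matrix (Fin 3) (Fin 3) R) :
    (blk c M).transpose = blk c M.transpose := by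
  ext ⟨p1, p2⟩ ⟨q1, q2⟩
  simp only [blk, Matrix.transpose_apply]
  by_cases h : p1 = q1
  · subst h; simp
  · rw [if_neg h, if_neg (Ne.symm h)]

/-- the matrix of `β` over `R` -/
def bR (t : R) : Matrix I I R := blk (fun _ => 1) !![0, 0, t; 1, 0, 0; 0, 1, 0]

/-- its inverse, if `t t' = 1` -/
def bRi (t' : R) : Matrix I I R := blk (fun _ => 1) !![0, 1, 0; 0, 0, 1; t', 0, 0]

/-- the matrix of the form over `R` -/
def qR (t : R) : Matrix I I R := blk (fun k => (wt k : R)) !![1, 0, 0; 0, 0, t; 0, t, 0]

/-- its inverse -/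
def qRi (c : Fin 9 → R) (t' : R) : Matrix I I R := blk c !![1, 0, 0; 0, 0, t'; 0, t', 0]

theorem bR_bRi (t t' : R) (h : t * t' = 1) : bR t * bRi t' = 1 := by
  rw [bR, bRi, blk_mul]
  refine blk_one _ _ (fun k => one_mul _) ?_
  ext i j
  fin_cases i <;> fin_cases j <;> simp [Matrix.mul_apply, Fin.sum_univ_three, h]

theorem bRi_bR (t t' : R) (h : t * t' = 1) : bRi t' * bR t = 1 := by
  rw [bR, bRi, blk_mul]
  refine blk_one _ _ (fun k => one_mul _) ?_
  ext i j
  fin_cases i <;> fin_cases j <;> simp [Matrix.mul_apply, Fin.sum_univ_three, mul_comm t', h]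

theorem bR_cube (t : R) : bR t * (bR t * bR t) = t • (1 : Matrix I I R) := by
  have e : bR t * (bR t * bR t) = blk (fun _ => 1) (t • (1 : Matrix (Fin 3) (Fin 3) R)) := by
    rw [bR, blk_mul, blk_mul]
    congr 1
    · funext k; simp
    · ext i j
      fin_cases i <;> fin_cases j <;> simp [Matrix.mul_apply, Fin.sum_univ_three]
  rw [e]
  ext ⟨p1, p2⟩ ⟨q1, q2⟩
  simp only [blk, one_mul, Matrix.smul_apply, Matrix.one_apply, Prod.mk.injEq, smul_eq_mul]
  by_cases h : p1 = q1 <;> by_cases h' : p2 = q2 <;> simp [h, h']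

theorem qR_bR (t : R) : (bR t).transpose * qR t = qR t * bR t := by
  rw [bR, qR, blk_transpose, blk_mul, blk_mul]
  congr 1
  · funext k; simp
  · ext i j
    fin_cases i <;> fin_cases j <;> simp [Matrix.mul_apply, Fin.sum_univ_three]

theorem qR_transpose (t : R) : (qR t).transpose = qR t := by
  rw [qR, blk_transpose]
  congr 1
  ext i j
  fin_cases i <;> fin_cases j <;> simp

theorem qRi_transpose (c : Fin 9 → R) (t' : R) : (qRi c t').transpose = qRi c t' := by
  rw [qRi, blk_transpose]
  congr 1
  ext i j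
  fin_cases i <;> fin_cases j <;> simp

theorem qR_qRi (c : Fin 9 → R) (t t' : R) (h : t * t' = 1) (hc : ∀ k, (wt k : R) * c k = 1) :
    qR t * qRi c t' = 1 := by
  rw [qR, qRi, blk_mul]
  refine blk_one _ _ hc ?_
  ext i j
  fin_cases i <;> fin_cases j <;> simp [Matrix.mul_apply, Fin.sum_univ_three, h]

theorem qRi_qR (c : Fin 9 → R) (t t' : R) (h : t * t' = 1) (hc : ∀ k, (wt k : R) * c k = 1) :
    qRi c t' * qR t = 1 := by
  rw [qR, qRi, blk_mul]
  refine blk_one _ _ (fun k => by rw [mul_comm, hc]) ?_
  ext i j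
  fin_cases i <;> fin_cases j <;> simp [Matrix.mul_apply, Fin.sum_univ_three, mul_comm t', h]

theorem B_eval (f : S R →+* R) (hf : ∀ r, f (S.C r) = r) (t : R) : (B t).map f = bR t := by
  ext ⟨p1, p2⟩ ⟨q1, q2⟩
  simp only [Matrix.map_apply, B, bR, blk, one_mul]
  by_cases h : p1 = q1
  · simp only [h, if_true]
    fin_cases p2 <;> fin_cases q2 <;> simp [B3, hf]
  · simp [h]

theorem Q_eval (f : S R →+* R) (hf : ∀ r, f (S.C r) = r) (t : R) : (Q t).map f = qR t := by
  ext ⟨p1, p2⟩ ⟨q1, q2⟩
  simp only [Matrix.map_apply, Q, qR, blk]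
  by_cases h : p1 = q1
  · simp only [h, if_true]
    fin_cases p2 <;> fin_cases q2 <;> simp [C3, hf]
  · simp [h]

/-- the conjugates of a matrix -/
def cj (t t' : R) (A : Matrix I I R) (i : Fin 3) : Matrix I I R :=
  match i with
  | 0 => A
  | 1 => bR t * A * bRi t'
  | 2 => bR t * (bR t * A * bRi t') * bRi t'

theorem cj_rel (t t' : R) (h : t * t' = 1) (A : Matrix I I R) (i : Fin 3) :
    cj t t' A (i + 1) * bR t = bR t * cj t t' A i := by
  match i with
  | 0 =>
    show bR t * A * bRi t' * bR t = bR t * A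
    rw [Matrix.mul_assoc _ (bRi t'), bRi_bR t t' h, Matrix.mul_one]
  | 1 =>
    show bR t * (bR t * A * bRi t') * bRi t' * bR t = bR t * (bR t * A * bRi t')
    rw [Matrix.mul_assoc _ (bRi t'), bRi_bR t t' h, Matrix.mul_one]
  | 2 =>
    show A * bR t = bR t * (bR t * (bR t * A * bRi t') * bRi t')
    have e1 : bR t * (bR t * (bR t * A * bRi t') * bRi t') =
        (bR t * (bR t * bR t)) * A * (bRi t' * bRi t') := by
      simp only [Matrix.mul_assoc]
    have e2 : bRi t' * bRi t' = t' • bR t := by
      have : t • (bRi t' * bRi t') = bR t := by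
        have e3 : bR t * (bR t * bR t) * (bRi t' * bRi t') = bR t := by
          calc bR t * (bR t * bR t) * (bRi t' * bRi t')
              = bR t * (bR t * (bR t * bRi t') * bRi t') := by simp only [Matrix.mul_assoc]
            _ = bR t := by
                rw [bR_bRi t t' h, Matrix.mul_one, bR_bRi t t' h, Matrix.mul_one]
        rw [bR_cube t, Matrix.smul_mul, Matrix.one_mul] at e3
        exact e3
      rw [← this, smul_smul, mul_comm, h, one_smul]
    rw [e1, bR_cube t, e2, Matrix.smul_mul, Matrix.one_mul, Matrix.mul_smul,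
      Matrix.smul_mul, smul_smul, mul_comm t', h, one_smul]

theorem cj_mul (t t' : R) (h : t * t' = 1) (A A' : Matrix I I R) (i : Fin 3) (hA : A * A' = 1) :
    cj t t' A i * cj t t' A' i = 1 := by
  have step : ∀ X X' : Matrix I I R, X * X' = 1 →
      (bR t * X * bRi t') * (bR t * X' * bRi t') = 1 := by
    intro X X' hX
    calc (bR t * X * bRi t') * (bR t * X' * bRi t')
        = bR t * X * (bRi t' * bR t) * X' * bRi t' := by simp only [Matrix.mul_assoc]
      _ = bR t * (X * X') * bRi t' := by
          rw [bRi_bR t t' h, Matrix.mul_one]; simp only [Matrix.mul_assoc]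
      _ = 1 := by rw [hX, Matrix.mul_one, bR_bRi t t' h]
  match i with
  | 0 => exact hA
  | 1 => exact step _ _ hA
  | 2 => exact step _ _ (step _ _ hA)

theorem cj_det (t t' : R) (h : t * t' = 1) (A : Matrix I I R) (i : Fin 3) (hA : A.det = 1) :
    (cj t t' A i).det = 1 := by
  have hb : (bR t).det * (bRi t').det = 1 := by
    rw [← Matrix.det_mul, bR_bRi t t' h, Matrix.det_one]
  have step : ∀ X : Matrix I I R, X.det = 1 → (bR t * X * bRi t').det = 1 := by
    intro X hX
    rw [Matrix.det_mul, Matrix.det_mul, hX, mul_one, hb]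
  match i with
  | 0 => exact hA
  | 1 => exact step _ hA
  | 2 => exact step _ (step _ hA)

/-- uniqueness: the values at all six points are determined by the first one -/
theorem inj_aux (D : Dat R) (t t' : R) (h : t * t' = 1) (c : Fin 9 → R)
    (hc : ∀ k, (wt k : R) * c k = 1)
    (X Y : Matrix I I (S R)) (hX : X.map S.sg * B t = B t * X) (hY : Y.map S.sg * B t = B t * Y)
    (hX2 : (X.map S.rh).transpose * Q t * X = Q t) (hY2 : (Y.map S.rh).transpose * Q t * Y = Q t)
    (hXY : X.map (D.e0 0) = Y.map (D.e0 0)) : X = Y := by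
  have hrel : ∀ Z : Matrix I I (S R), Z.map S.sg * B t = B t * Z → ∀ i,
      Z.map (D.e0 (i + 1)) * bR t = bR t * Z.map (D.e0 i) := by
    intro Z hZ i
    have e := congrArg (fun M => M.map (D.e0 i)) hZ
    simp only [Matrix.map_mul] at e
    rw [B_eval _ (D.e0_C i)] at e
    rw [← e]
    congr 1
    ext p q
    simp [D.e0_sg]
  have hrel2 : ∀ Z : Matrix I I (S R), Z.map S.sg * B t = B t * Z → ∀ i,
      Z.map (D.e0 (i + 1)) = bR t * Z.map (D.e0 i) * bRi t' := by
    intro Z hZ i
    rw [← hrel Z hZ i, Matrix.mul_assoc, bR_bRi t t' h, Matrix.mul_one]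
  have h0 : ∀ i, X.map (D.e0 i) = Y.map (D.e0 i) := by
    intro i
    match i with
    | 0 => exact hXY
    | 1 =>
      have := hrel2 X hX 0
      have h' := hrel2 Y hY 0
      rw [hXY, ← h'] at this
      exact this
    | 2 =>
      have a0 := hrel2 X hX 0
      have b0 := hrel2 Y hY 0
      have a1 := hrel2 X hX 1
      have b1 := hrel2 Y hY 1
      simp only [Fin.isValue, zero_add] at a0 b0
      have e : (1 + 1 : Fin 3) = 2 := rfl
      rw [e] at a1 b1
      rw [a1, b1, a0, b0, hXY]
  have hq : ∀ Z : Matrix I I (S R), (Z.map S.rh).transpose * Q t * Z = Q t → ∀ i,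
      (Z.map (D.e1 i)).transpose * qR t * Z.map (D.e0 i) = qR t := by
    intro Z hZ i
    have e := congrArg (fun M => M.map (D.e0 i)) hZ
    simp only [Matrix.map_mul] at e
    rw [Q_eval _ (D.e0_C i)] at e
    rw [← e]
    congr 2
    ext p q
    simp [D.e0_rh]
  have h1 : ∀ i, X.map (D.e1 i) = Y.map (D.e1 i) := by
    intro i
    have a := hq X hX2 i
    have b := hq Y hY2 i
    rw [h0 i] at a
    have hl : (qRi c t' * (Y.map (D.e1 i)).transpose * qR t) * Y.map (D.e0 i) = 1 := by
      calc (qRi c t' * (Y.map (D.e1 i)).transpose * qR t) * Y.map (D.e0 i)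
          = qRi c t' * ((Y.map (D.e1 i)).transpose * qR t * Y.map (D.e0 i)) := by
            simp only [Matrix.mul_assoc]
        _ = 1 := by rw [b, qRi_qR c t t' h hc]
    have hr := mul_eq_one_comm.mp hl
    set L := qRi c t' * (Y.map (D.e1 i)).transpose * qR t
    have key : ∀ Z : Matrix I I R, Z * qR t * Y.map (D.e0 i) = qR t →
        Z = qR t * L * qRi c t' := by
      intro Z hZ
      calc Z = Z * (qR t * (Y.map (D.e0 i) * L) * qRi c t') := by
            rw [hr, Matrix.mul_one, qR_qRi c t t' h hc, Matrix.mul_one]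
        _ = (Z * qR t * Y.map (D.e0 i)) * L * qRi c t' := by simp only [Matrix.mul_assoc]
        _ = qR t * L * qRi c t' := by rw [hZ]
    have e := (key _ a).trans (key _ b).symm
    have e' := congrArg Matrix.transpose e
    simpa using e'
  ext1 p q
  refine D.hext _ _ (fun i => ?_) (fun i => ?_)
  · exact congrFun (congrFun (h0 i) p) q
  · exact congrFun (congrFun (h1 i) p) q

/-- existence: the preimage of a matrix of determinant one -/
theorem surj_aux (D : Dat R) (t t' : R) (h : t * t' = 1) (c : Fin 9 → R)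
    (hc : ∀ k, (wt k : R) * c k = 1) (A A' : Matrix I I R) (hA : A * A' = 1) (hA' : A' * A = 1)
    (hd : A.det = 1) (hd' : A'.det = 1) :
    ∃ X : Matrix I I (S R), X.map S.sg * B t = B t * X ∧
      (X.map S.rh).transpose * Q t * X = Q t ∧ X.det = 1 ∧ X.map (D.e0 0) = A := by
  let G : Fin 3 → Matrix I I R := cj t t' A
  let H : Fin 3 → Matrix I I R := cj t t' A'
  let G' : Fin 3 → Matrix I I R := fun i => qRi c t' * (H i).transpose * qR t
  let X : Matrix I I (S R) := fun p q => D.lift (fun i => G i p q) (fun i => G' i p q)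
  have h0 : ∀ i, X.map (D.e0 i) = G i := by
    intro i
    ext p q
    exact D.e0_lift _ _ i
  have h1 : ∀ i, X.map (D.e1 i) = G' i := by
    intro i
    ext p q
    exact D.e1_lift _ _ i
  have hext : ∀ Z W : Matrix I I (S R), (∀ i, Z.map (D.e0 i) = W.map (D.e0 i)) →
      (∀ i, Z.map (D.e1 i) = W.map (D.e1 i)) → Z = W := by
    intro Z W a b
    ext1 p q
    exact D.hext _ _ (fun i => congrFun (congrFun (a i) p) q)
      (fun i => congrFun (congrFun (b i) p) q)
  have hGH : ∀ i, G i * H i = 1 := fun i => cj_mul t t' h A A' i hA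
  have hHG : ∀ i, H i * G i = 1 := fun i => cj_mul t t' h A' A i hA'
  have hqq := qR_qRi c t t' h hc
  have hqq' := qRi_qR c t t' h hc
  have hG' : ∀ i, (G' i).transpose = qR t * H i * qRi c t' := by
    intro i
    show (qRi c t' * (H i).transpose * qR t).transpose = _
    rw [Matrix.transpose_mul, Matrix.transpose_mul, Matrix.transpose_transpose, qR_transpose,
      qRi_transpose, Matrix.mul_assoc]
  have hbq : qRi c t' * (bR t).transpose = bR t * qRi c t' := by
    calc qRi c t' * (bR t).transpose = qRi c t' * (bR t).transpose * (qR t * qRi c t') := by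
          rw [hqq, Matrix.mul_one]
      _ = qRi c t' * ((bR t).transpose * qR t) * qRi c t' := by simp only [Matrix.mul_assoc]
      _ = (qRi c t' * qR t) * bR t * qRi c t' := by rw [qR_bR]; simp only [Matrix.mul_assoc]
      _ = bR t * qRi c t' := by rw [hqq', Matrix.one_mul]
  refine ⟨X, ?_, ?_, ?_, h0 0⟩
  · refine hext _ _ (fun i => ?_) (fun i => ?_)
    · have e : (X.map S.sg).map (D.e0 i) = X.map (D.e0 (i + 1)) := by
        ext p q
        simp [D.e0_sg]
      rw [Matrix.map_mul, Matrix.map_mul, e, B_eval _ (D.e0_C i), h0, h0]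
      exact cj_rel t t' h A i
    · have e : (X.map S.sg).map (D.e1 i) = X.map (D.e1 (i + 2)) := by
        ext p q
        simp [D.e1_sg]
      rw [Matrix.map_mul, Matrix.map_mul, e, B_eval _ (D.e1_C i), h1, h1]
      have hr : H i * bR t = bR t * H (i + 2) := by
        have := cj_rel t t' h A' (i + 2)
        have e3 : i + 2 + 1 = i := by
          match i with
          | 0 => rfl
          | 1 => rfl
          | 2 => rfl
        rw [e3] at this
        exact this
      calc (qRi c t' * (H (i + 2)).transpose * qR t) * bR t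
          = qRi c t' * ((H (i + 2)).transpose * (bR t).transpose) * qR t := by
            rw [Matrix.mul_assoc _ (qR t), ← qR_bR]; simp only [Matrix.mul_assoc]
        _ = qRi c t' * ((bR t).transpose * (H i).transpose) * qR t := by
            rw [← Matrix.transpose_mul, ← Matrix.transpose_mul, hr]
        _ = (qRi c t' * (bR t).transpose) * (H i).transpose * qR t := by
            simp only [Matrix.mul_assoc]
        _ = bR t * (qRi c t' * (H i).transpose * qR t) := by
            rw [hbq]; simp only [Matrix.mul_assoc]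
  · refine hext _ _ (fun i => ?_) (fun i => ?_)
    · have e : (X.map S.rh).transpose.map (D.e0 i) = (X.map (D.e1 i)).transpose := by
        ext p q
        simp [D.e0_rh]
      rw [Matrix.map_mul, Matrix.map_mul, e, Q_eval _ (D.e0_C i), h0, h1, hG']
      calc qR t * H i * qRi c t' * qR t * G i
          = qR t * (H i * (qRi c t' * qR t) * G i) := by simp only [Matrix.mul_assoc]
        _ = qR t := by rw [hqq', Matrix.mul_one, hHG, Matrix.mul_one]
    · have e : (X.map S.rh).transpose.map (D.e1 i) = (X.map (D.e0 i)).transpose := by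
        ext p q
        simp [D.e1_rh]
      rw [Matrix.map_mul, Matrix.map_mul, e, Q_eval _ (D.e1_C i), h0, h1]
      calc (G i).transpose * qR t * (qRi c t' * (H i).transpose * qR t)
          = (G i).transpose * (qR t * qRi c t') * (H i).transpose * qR t := by
            simp only [Matrix.mul_assoc]
        _ = (H i * G i).transpose * qR t := by
            rw [hqq, Matrix.mul_one, ← Matrix.transpose_mul]
        _ = qR t := by rw [hHG, Matrix.transpose_one, Matrix.one_mul]
  · refine D.hext _ _ (fun i => ?_) (fun i => ?_)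
    · rw [RingHom.map_det, map_one]
      show (X.map (D.e0 i)).det = 1
      rw [h0]
      exact cj_det t t' h A i hd
    · rw [RingHom.map_det, map_one]
      show (X.map (D.e1 i)).det = 1
      rw [h1]
      show (qRi c t' * (H i).transpose * qR t).det = 1
      rw [Matrix.det_mul, Matrix.det_mul, Matrix.det_transpose, cj_det t t' h A' i hd', mul_one,
        ← Matrix.det_mul, hqq', Matrix.det_one]

/-! ### the isomorphism -/

/-- the data of a `K`-algebra, `K` algebraically closed of characteristic zero -/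
def Dat.ofAlg {K : Type} [Field K] (D : Dat K) (R : Type) [CommRing R] [Algebra K R] : Dat R where
  w := algebraMap K R D.w
  z := algebraMap K R D.z
  u2 := algebraMap K R D.u2
  u3 := algebraMap K R D.u3
  hw := by
    have := congrArg (algebraMap K R) D.hw
    simpa using this
  hz := by
    have := congrArg (algebraMap K R) D.hz
    simpa [map_ofNat] using this
  h2 := by
    have := congrArg (algebraMap K R) D.h2
    simpa [map_ofNat] using this
  h3 := by
    have := congrArg (algebraMap K R) D.h3
    simpa [map_ofNat] using this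

theorem exists_dat (K : Type) [Field K] [CharZero K] [IsAlgClosed K] : Nonempty (Dat K) := by
  obtain ⟨z, hz⟩ := IsAlgClosed.exists_pow_nat_eq (2 : K) (show 0 < 3 by norm_num)
  obtain ⟨s, hs⟩ := IsAlgClosed.exists_pow_nat_eq (-3 : K) (show 0 < 2 by norm_num)
  refine ⟨⟨(-1 + s) / 2, z, 1 / 2, 1 / 3, ?_, hz, by norm_num, by norm_num⟩⟩
  field_simp
  linear_combination hs

/-- reindexing of special linear groups -/
def slReindex {m n : Type} [Fintype m] [Fintype n] [DecidableEq m] [DecidableEq n]
    (e : m ≃ n) (R : Type) [CommRing R] :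
    Matrix.SpecialLinearGroup m R ≃* Matrix.SpecialLinearGroup n R where
  toFun g := ⟨Matrix.reindex e e (g : Matrix m m R), by
    rw [Matrix.det_reindex_self]; exact g.2⟩
  invFun g := ⟨Matrix.reindex e.symm e.symm (g : Matrix n n R), by
    rw [Matrix.det_reindex_self]; exact g.2⟩
  left_inv g := by
    ext i j
    simp
  right_inv g := by
    ext i j
    simp
  map_mul' g h := by
    apply Subtype.ext
    show Matrix.reindex e e ((g : Matrix m m R) * (h : Matrix m m R)) =
      Matrix.reindex e e (g : Matrix m m R) * Matrix.reindex e e (h : Matrix m m R)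
    simp [Matrix.submatrix_mul_equiv]

open GroupFunctor

theorem e0_map {R R' : Type} [CommRing R] [CommRing R'] (D : Dat R) (D' : Dat R') (f : R →+* R')
    (hw : f D.w = D'.w) (hz : f D.z = D'.z) (x : S R) : D'.e0 0 (S.map f x) = f (D.e0 0 x) := by
  simp [Dat.e0, ev_apply, hw, hz]

theorem unitary_split (K : Type) [Field K] [CharZero K] [IsAlgClosed K] (t : K) (ht : t ≠ 0) :
    (unitary K t).Isomorphic (SL 27 K) := by
  obtain ⟨D⟩ := exists_dat K
  let φ : GroupFunctor.Hom (unitary K t) (SL 27 K) :=
    { app := fun R _ _ => (slReindex (finProdFinEquiv : I ≃ Fin 27) R).toMonoidHom.comp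
        ((Matrix.SpecialLinearGroup.map ((D.ofAlg R).e0 0)).comp
          (SU R (algebraMap K R t)).subtype)
      naturality := by
        intro R R' _ _ _ _ f x
        apply Subtype.ext
        ext i j
        show (D.ofAlg R').e0 0 (S.map (f : R →+* R') _) = f ((D.ofAlg R).e0 0 _)
        rw [e0_map (D.ofAlg R) (D.ofAlg R') (f : R →+* R') (by simp [Dat.ofAlg])
          (by simp [Dat.ofAlg])]
        rfl }
  refine ⟨φ, fun R _ _ => ?_⟩
  have htt : algebraMap K R t * algebraMap K R t⁻¹ = 1 := by
    rw [← map_mul, mul_inv_cancel₀ ht, map_one]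
  let c : Fin 9 → R := fun k => algebraMap K R ((wt k : K)⁻¹)
  have hc : ∀ k, (wt k : R) * c k = 1 := by
    intro k
    have h0 : (wt k : K) ≠ 0 := by
      have : wt k ≠ 0 := by
        fin_cases k <;> simp [wt]
      exact_mod_cast this
    have e : (wt k : R) = algebraMap K R (wt k : K) := by simp
    rw [e, ← map_mul, mul_inv_cancel₀ h0, map_one]
  refine (slReindex (finProdFinEquiv : I ≃ Fin 27) R).bijective.comp ⟨?_, ?_⟩
  · intro X Y hXY
    apply Subtype.ext
    apply Subtype.ext
    exact inj_aux (D.ofAlg R) _ _ htt c hc _ _ X.2.1 Y.2.1 X.2.2 Y.2.2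
      (congrArg (fun g : Matrix.SpecialLinearGroup I R => (g : Matrix I I R)) hXY)
  · intro A
    have h1 : (A : Matrix I I R) * ((A⁻¹ : Matrix.SpecialLinearGroup I R) : Matrix I I R) = 1 := by
      rw [← Matrix.SpecialLinearGroup.coe_mul, mul_inv_cancel, Matrix.SpecialLinearGroup.coe_one]
    have h2 : ((A⁻¹ : Matrix.SpecialLinearGroup I R) : Matrix I I R) * (A : Matrix I I R) = 1 := by
      rw [← Matrix.SpecialLinearGroup.coe_mul, inv_mul_cancel, Matrix.SpecialLinearGroup.coe_one]
    obtain ⟨X, a1, a2, a3, a4⟩ := surj_aux (D.ofAlg R) _ _ htt c hc _ _ h1 h2 A.2 (A⁻¹).2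
    refine ⟨⟨⟨X, a3⟩, a1, a2⟩, ?_⟩
    apply Subtype.ext
    exact a4

end Pool.Agent.helper85.TA
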