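import Pool.Agent.helper83.TA.Defs

/-!
# The six evaluations `R[θ, ω] → R`
-/

set_option autoImplicit false

namespace Pool.Agent.helper85.TA

open Pool.Agent.helper83.TA

/-- A ring with a primitive cube root of unity, a cube root of `2`, and inverses of `2`, `3`. -/
structure Dat (R : Type) [CommRing R] where
  /-- cube root of unity -/
  w : R
  /-- cube root of two -/
  z : R
  /-- inverse of two -/
  u2 : R
  /-- inverse of three -/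
  u3 : R
  hw : w ^ 2 + w + 1 = 0
  hz : z ^ 3 = 2
  h2 : 2 * u2 = 1
  h3 : 3 * u3 = 1

variable {R : Type} [CommRing R]

/-- evaluation at `θ = a`, `ω = b` -/
def ev (a b : R) (ha : a ^ 3 = 2) (hb : b ^ 2 + b + 1 = 0) : S R →+* R where
  toFun x := x.a0 + x.a1 * a + x.a2 * a ^ 2 + (x.b0 + x.b1 * a + x.b2 * a ^ 2) * b
  map_zero' := by simp
  map_one' := by simp
  map_add' x y := by simp; ring
  map_mul' x y := by
    have hb' : b ^ 2 = -1 - b := by linear_combination hb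
    have ha4 : a ^ 4 = 2 * a := by linear_combination a * ha
    simp only [S.mul_a0, S.mul_a1, S.mul_a2, S.mul_b0, S.mul_b1, S.mul_b2]
    have key : ∀ p0 p1 p2 q0 q1 q2 : R,
        (p0 + p1 * a + p2 * a ^ 2) * (q0 + q1 * a + q2 * a ^ 2) =
        (p0 * q0 + 2 * (p1 * q2 + p2 * q1)) + (p0 * q1 + p1 * q0 + 2 * (p2 * q2)) * a +
          (p0 * q2 + p1 * q1 + p2 * q0) * a ^ 2 := by
      intro p0 p1 p2 q0 q1 q2
      linear_combination (p1 * q2 + p2 * q1) * ha + p2 * q2 * ha4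
    have h1 := key x.a0 x.a1 x.a2 y.a0 y.a1 y.a2
    have h2 := key x.a0 x.a1 x.a2 y.b0 y.b1 y.b2
    have h3 := key x.b0 x.b1 x.b2 y.a0 y.a1 y.a2
    have h4 := key x.b0 x.b1 x.b2 y.b0 y.b1 y.b2
    linear_combination (-1 : R) * h1 - b * h2 - b * h3 - b ^ 2 * h4 +
      (-1 : R) * ((x.b0 * y.b0 + 2 * (x.b1 * y.b2 + x.b2 * y.b1)) +
        (x.b0 * y.b1 + x.b1 * y.b0 + 2 * (x.b2 * y.b2)) * a +
          (x.b0 * y.b2 + x.b1 * y.b1 + x.b2 * y.b0) * a ^ 2) * hb'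

theorem ev_apply (a b : R) (ha : a ^ 3 = 2) (hb : b ^ 2 + b + 1 = 0) (x : S R) :
    ev a b ha hb x =
      x.a0 + x.a1 * a + x.a2 * a ^ 2 + (x.b0 + x.b1 * a + x.b2 * a ^ 2) * b := rfl

theorem ev_congr {a b a' b' : R} (ha : a ^ 3 = 2) (hb : b ^ 2 + b + 1 = 0) (ha' : a' ^ 3 = 2)
    (hb' : b' ^ 2 + b' + 1 = 0) (h1 : a = a') (h2 : b = b') (x : S R) :
    ev a b ha hb x = ev a' b' ha' hb' x := by
  subst h1 h2
  rfl

theorem ev_sg (a b : R) (ha : a ^ 3 = 2) (hb : b ^ 2 + b + 1 = 0) (ha' : (b * a) ^ 3 = 2)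
    (x : S R) : ev a b ha hb (S.sg x) = ev (b * a) b ha' hb x := by
  simp only [ev_apply, S.sg_a0, S.sg_a1, S.sg_a2, S.sg_b0, S.sg_b1, S.sg_b2]
  linear_combination (-x.b1 * a - x.a2 * a ^ 2 - x.b2 * a ^ 2 * (b - 1)) * hb

theorem ev_rh (a b : R) (ha : a ^ 3 = 2) (hb : b ^ 2 + b + 1 = 0)
    (hb' : (b ^ 2) ^ 2 + b ^ 2 + 1 = 0)
    (x : S R) : ev a b ha hb (S.rh x) = ev a (b ^ 2) ha hb' x := by
  simp only [ev_apply, S.rh_a0, S.rh_a1, S.rh_a2, S.rh_b0, S.rh_b1, S.rh_b2]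
  linear_combination (-(x.b0 + x.b1 * a + x.b2 * a ^ 2)) * hb

namespace Dat

variable (D : Dat R)

theorem w3 : D.w ^ 3 = 1 := by linear_combination (D.w - 1) * D.hw

theorem hw' : (D.w ^ 2) ^ 2 + D.w ^ 2 + 1 = 0 := by
  linear_combination (D.w ^ 2 - D.w + 1) * D.hw

theorem hz' (i : ℕ) : (D.w ^ i * D.z) ^ 3 = 2 := by
  have : (D.w ^ i * D.z) ^ 3 = (D.w ^ 3) ^ i * D.z ^ 3 := by ring
  rw [this, D.w3, one_pow, one_mul, D.hz]

/-- evaluation at `θ = w ^ i z`, `ω = w` -/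
def e0 (i : Fin 3) : S R →+* R := ev (D.w ^ (i : ℕ) * D.z) D.w (D.hz' i) D.hw

/-- evaluation at `θ = w ^ i z`, `ω = w ^ 2` -/
def e1 (i : Fin 3) : S R →+* R := ev (D.w ^ (i : ℕ) * D.z) (D.w ^ 2) (D.hz' i) D.hw'

theorem step (i : Fin 3) : D.w * D.w ^ (i : ℕ) = D.w ^ ((i + 1 : Fin 3) : ℕ) := by
  have h := D.w3
  match i with
  | 0 => show D.w * D.w ^ 0 = D.w ^ 1; ring
  | 1 => show D.w * D.w ^ 1 = D.w ^ 2; ring
  | 2 => show D.w * D.w ^ 2 = D.w ^ 0; linear_combination h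

theorem step2 (i : Fin 3) : D.w ^ 2 * D.w ^ (i : ℕ) = D.w ^ ((i + 2 : Fin 3) : ℕ) := by
  have h := D.w3
  match i with
  | 0 => show D.w ^ 2 * D.w ^ 0 = D.w ^ 2; ring
  | 1 => show D.w ^ 2 * D.w ^ 1 = D.w ^ 0; linear_combination h
  | 2 => show D.w ^ 2 * D.w ^ 2 = D.w ^ 1; linear_combination D.w * h

theorem e0_sg (i : Fin 3) (x : S R) : D.e0 i (S.sg x) = D.e0 (i + 1) x := by
  have h1 : D.w * (D.w ^ (i : ℕ) * D.z) = D.w ^ ((i + 1 : Fin 3) : ℕ) * D.z := by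
    rw [← D.step]; ring
  rw [e0, ev_sg _ _ _ _ (by rw [h1]; exact D.hz' _)]
  exact ev_congr _ _ _ _ h1 rfl x

theorem e1_sg (i : Fin 3) (x : S R) : D.e1 i (S.sg x) = D.e1 (i + 2) x := by
  have h1 : D.w ^ 2 * (D.w ^ (i : ℕ) * D.z) = D.w ^ ((i + 2 : Fin 3) : ℕ) * D.z := by
    rw [← D.step2]; ring
  rw [e1, ev_sg _ _ _ _ (by rw [h1]; exact D.hz' _)]
  exact ev_congr _ _ _ _ h1 rfl x

theorem e0_rh (i : Fin 3) (x : S R) : D.e0 i (S.rh x) = D.e1 i x :=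
  ev_rh _ _ _ _ _ x

theorem e1_rh (i : Fin 3) (x : S R) : D.e1 i (S.rh x) = D.e0 i x := by
  have h4 : (D.w ^ 2) ^ 2 = D.w := by linear_combination D.w * D.w3
  rw [e1, ev_rh _ _ _ _ (by rw [h4]; exact D.hw)]
  exact ev_congr _ _ _ _ rfl h4 x

@[simp] theorem e0_C (i : Fin 3) (r : R) : D.e0 i (S.C r) = r := by
  simp [e0, ev_apply]

@[simp] theorem e1_C (i : Fin 3) (r : R) : D.e1 i (S.C r) = r := by
  simp [e1, ev_apply]

/-! ### the six evaluations together are bijective -/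

/-- coefficient of `a ^ 0` of the interpolation -/
def c0 (v : Fin 3 → R) : R := D.u3 * (v 0 + v 1 + v 2)

/-- coefficient of `a ^ 1` of the interpolation -/
def c1 (v : Fin 3 → R) : R := D.u3 * D.u2 * D.z ^ 2 * (v 0 + D.w ^ 2 * v 1 + D.w * v 2)

/-- coefficient of `a ^ 2` of the interpolation -/
def c2 (v : Fin 3 → R) : R := D.u3 * D.u2 * D.z * (v 0 + D.w * v 1 + D.w ^ 2 * v 2)

theorem hz2 : D.u2 * D.z ^ 3 = 1 := by
  rw [D.hz, mul_comm, D.h2]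

theorem c_eval (v : Fin 3 → R) (i : Fin 3) :
    D.c0 v + D.c1 v * (D.w ^ (i : ℕ) * D.z) + D.c2 v * (D.w ^ (i : ℕ) * D.z) ^ 2 = v i := by
  have h3 := D.h3
  have hw := D.hw
  have hz := D.hz2
  match i with
  | 0 =>
    show D.c0 v + D.c1 v * (D.w ^ 0 * D.z) + D.c2 v * (D.w ^ 0 * D.z) ^ 2 = v 0
    unfold c0 c1 c2
    linear_combination (D.u3 * (v 0 + D.w ^ 2 * v 1 + D.w * v 2) +
      D.u3 * (v 0 + D.w * v 1 + D.w ^ 2 * v 2)) * hz + v 0 * h3 + D.u3 * (v 1 + v 2) * hw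
  | 1 =>
    show D.c0 v + D.c1 v * (D.w ^ 1 * D.z) + D.c2 v * (D.w ^ 1 * D.z) ^ 2 = v 1
    unfold c0 c1 c2
    linear_combination (D.w * (D.u3 * (v 0 + D.w ^ 2 * v 1 + D.w * v 2)) +
      D.w ^ 2 * (D.u3 * (v 0 + D.w * v 1 + D.w ^ 2 * v 2))) * hz + v 1 * h3 +
      D.u3 * (v 0 + 2 * (D.w - 1) * v 1 + (D.w ^ 2 - D.w + 1) * v 2) * hw
  | 2 =>
    show D.c0 v + D.c1 v * (D.w ^ 2 * D.z) + D.c2 v * (D.w ^ 2 * D.z) ^ 2 = v 2
    unfold c0 c1 c2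
    linear_combination (D.w ^ 2 * (D.u3 * (v 0 + D.w ^ 2 * v 1 + D.w * v 2)) +
      D.w ^ 4 * (D.u3 * (v 0 + D.w * v 1 + D.w ^ 2 * v 2))) * hz + v 2 * h3 +
      D.u3 * ((D.w ^ 2 - D.w + 1) * v 0 + (D.w ^ 3 - D.w + 1) * v 1 +
        (D.w - 1) * (D.w ^ 3 + 2) * v 2) * hw

theorem c_uniq (p0 p1 p2 : R)
    (h : ∀ i : Fin 3, p0 + p1 * (D.w ^ (i : ℕ) * D.z) + p2 * (D.w ^ (i : ℕ) * D.z) ^ 2 = 0) :
    p0 = 0 ∧ p1 = 0 ∧ p2 = 0 := by
  have h0 : p0 + p1 * (D.w ^ 0 * D.z) + p2 * (D.w ^ 0 * D.z) ^ 2 = 0 := h 0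
  have h1 : p0 + p1 * (D.w ^ 1 * D.z) + p2 * (D.w ^ 1 * D.z) ^ 2 = 0 := h 1
  have h2 : p0 + p1 * (D.w ^ 2 * D.z) + p2 * (D.w ^ 2 * D.z) ^ 2 = 0 := h 2
  have h3 := D.h3
  have hw := D.hw
  have hz := D.hz2
  refine ⟨?_, ?_, ?_⟩
  · linear_combination D.u3 * (h0 + h1 + h2) - p0 * h3 -
      D.u3 * (p1 * D.z + p2 * D.z ^ 2 * (D.w ^ 2 - D.w + 1)) * hw
  · have e : 3 * (p1 * D.z) = 0 := by
      linear_combination h0 + D.w ^ 2 * h1 + D.w * h2 - (p0 + 2 * (D.w - 1) * p1 * D.z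
        + (1 - D.w + D.w ^ 3) * p2 * D.z ^ 2) * hw
    linear_combination D.u3 * D.u2 * D.z ^ 2 * e - p1 * h3 - 3 * D.u3 * p1 * hz
  · have e : 3 * (p2 * D.z ^ 2) = 0 := by
      linear_combination h0 + D.w * h1 + D.w ^ 2 * h2 - (p0 + (1 - D.w + D.w ^ 2) * p1 * D.z
        + (D.w - 1) * (D.w ^ 3 + 2) * p2 * D.z ^ 2) * hw
    linear_combination D.u3 * D.u2 * D.z * e - p2 * h3 - 3 * D.u3 * p2 * hz

theorem hext (x y : S R) (h0 : ∀ i, D.e0 i x = D.e0 i y) (h1 : ∀ i, D.e1 i x = D.e1 i y) :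
    x = y := by
  obtain ⟨a1, a2, a3⟩ := D.c_uniq ((x.a0 - y.a0) + (x.b0 - y.b0) * D.w)
    ((x.a1 - y.a1) + (x.b1 - y.b1) * D.w) ((x.a2 - y.a2) + (x.b2 - y.b2) * D.w) (by
      intro i
      have := h0 i
      simp only [e0, ev_apply] at this
      linear_combination this)
  obtain ⟨b1, b2, b3⟩ := D.c_uniq ((x.a0 - y.a0) + (x.b0 - y.b0) * D.w ^ 2)
    ((x.a1 - y.a1) + (x.b1 - y.b1) * D.w ^ 2) ((x.a2 - y.a2) + (x.b2 - y.b2) * D.w ^ 2) (by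
      intro i
      have := h1 i
      simp only [e1, ev_apply] at this
      linear_combination this)
  have key : ∀ p q : R, p + q * D.w = 0 → p + q * D.w ^ 2 = 0 → p = 0 ∧ q = 0 := by
    intro p q h h'
    have e : q = 0 := by
      have : q * (D.w - D.w ^ 2) = 0 := by linear_combination h - h'
      linear_combination (-D.u3 * (D.w - D.w ^ 2)) * this - q * D.h3 +
        q * D.u3 * (D.w ^ 2 - 3 * D.w + 3) * D.hw
    exact ⟨by rw [e] at h; linear_combination h, e⟩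
  have k0 := key _ _ a1 b1
  have k1 := key _ _ a2 b2
  have k2 := key _ _ a3 b3
  ext
  · exact sub_eq_zero.mp k0.1
  · exact sub_eq_zero.mp k1.1
  · exact sub_eq_zero.mp k2.1
  · exact sub_eq_zero.mp k0.2
  · exact sub_eq_zero.mp k1.2
  · exact sub_eq_zero.mp k2.2

/-- the element with prescribed values -/
def lift (v v' : Fin 3 → R) : S R :=
  let d : R := -D.u3 * (D.w - D.w ^ 2)
  let q0 := d * (D.c0 v - D.c0 v')
  let q1 := d * (D.c1 v - D.c1 v')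
  let q2 := d * (D.c2 v - D.c2 v')
  ⟨D.c0 v - D.w * q0, D.c1 v - D.w * q1, D.c2 v - D.w * q2, q0, q1, q2⟩

theorem e0_lift (v v' : Fin 3 → R) (i : Fin 3) : D.e0 i (D.lift v v') = v i := by
  rw [← D.c_eval v i]
  simp only [e0, ev_apply, lift]
  ring

theorem e1_lift (v v' : Fin 3 → R) (i : Fin 3) : D.e1 i (D.lift v v') = v' i := by
  have hd : (-D.u3 * (D.w - D.w ^ 2)) * (D.w ^ 2 - D.w) = -1 := by
    linear_combination (-D.h3) + D.u3 * (D.w ^ 2 - 3 * D.w + 3) * D.hw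
  have h1 := D.c_eval v' i
  rw [← h1]
  simp only [e1, ev_apply, lift]
  linear_combination ((D.c0 v - D.c0 v') + (D.c1 v - D.c1 v') * (D.w ^ (i : ℕ) * D.z) +
    (D.c2 v - D.c2 v') * (D.w ^ (i : ℕ) * D.z) ^ 2) * hd

end Dat

end Pool.Agent.helper85.TA
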